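import Pool.Agent.H433.EW.Def2
import Pool.Agent.H433.HD.Def2

/-!
Definitions: the hyperelliptic curves `d y ^ 2 = φ(x) - t`, where `φ` is a monic polynomial of degree
`2 g + 2` over the ring of integers of `K` with critical points in `K`.
-/

set_option autoImplicit false

open NumberField IsDedekindDomain Finset Polynomial Filter Topology

namespace Pool.Agent.H433.CQ

open Pool.Agent.H433.AC Pool.Agent.H433.HG Pool.Agent.H433.HD
open Pool.Agent.H433.EW.Poly (bc)

variable {K : Type} [Field K] [NumberField K]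

/-- `φ` is a monic polynomial of degree `m + 1` with integral coefficients, its critical points are
the numbers `c_i` in `K`, its critical values `φ(c_i)` are different, and for all embeddings of `K`
in `ℂ` the critical points have absolute value at most `(A T) ^ (1 / (m + 1))` and `|φ(0)| ≤ A T`. -/
structure Crit (m : ℕ) (A : ℝ) (T : ℕ) (φ : (𝓞 K)[X]) (c : Fin m → 𝓞 K) : Prop where
  monic : φ.Monic
  deg : φ.natDegree = m + 1
  der : derivative φ = C ((m + 1 : ℕ) : 𝓞 K) * ∏ i, (X - C (c i))
  inj : Function.Injective fun i => φ.eval (c i)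
  size : ∀ i, ∀ σ : K →+* ℂ, ‖σ (c i : K)‖ ^ (m + 1) ≤ A * T
  zero : ∀ σ : K →+* ℂ, ‖σ (φ.coeff 0 : K)‖ ≤ A * T

/-- For the point `P` with the orbit `X` and for every prime `w` of `E` over a prime which divides
the discriminant exactly once: `2 ^ n P` lies in the identity component, or `w` is thin (the
difference of two of the roots is a uniformiser) and `n ≥ 1`. -/
def Comp {g : ℕ} {L : Type} [Field L] [NumberField L] [Algebra K L] {E : Type} [Field E]
    [NumberField E] [Algebra L E] (f : (𝓞 K)[X]) (r : Fin (2 * g + 2) → L)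
    (X : ℕ → Finset (Fin (2 * g + 1)) → E) (n : ℕ) : Prop :=
  ∀ v : HeightOneSpectrum (𝓞 K), Once f.discr v → ∀ (u : HeightOneSpectrum (𝓞 L))
    (w : HeightOneSpectrum (𝓞 E)), Over v u → Over u w →
      (1 ≤ n ∧ EW.Poly.Thin (fun i => algebraMap L E (r i)) w) ∨
        EW.Poly.Ident (fun i => algebraMap L E (r i)) (X n) w

/-- The inequality of Lang and Silverman, with explicit constants, for the Jacobian of the curve
`y ^ 2 = f(x)`, `f` of degree `2 g + 2`, all its quadratic twists, over all finite extensions of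
`K`. -/
def LangSilverman (g : ℕ) (ε : ℝ) (T : ℕ) (f : (𝓞 K)[X]) : Prop :=
  f.discr ≠ 0 ∧
  ∀ (L : Type) [Field L] [NumberField L] [Algebra K L]
    [IsSplittingField K L (f.map (algebraMap (𝓞 K) K))] (r : Fin (2 * g + 2) → L),
    f.map (algebraMap (𝓞 K) L) = ∏ i, (Polynomial.X - C (r i)) →
    Function.Injective r ∧ Function.Injective (bc r) ∧
    ht (fun S => (rs (bc r) S)⁻¹) ≤ Module.finrank K L *
      ((g / 2 + ε) * (Module.finrank ℚ K * Real.log T)) ∧
    ∀ (E : Type) [Field E] [NumberField E] [Algebra L E],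
      ∀ X : ℕ → Finset (Fin (2 * g + 1)) → E, Orbit (fun i => algebraMap L E (bc r i)) X →
        Tendsto (fun n : ℕ => ht (X n) / 4 ^ n) atTop (𝓝 (hhat X)) ∧
        (Origin (X 1) ∨ ∀ S : Finset (HeightOneSpectrum (𝓞 E)), (∀ v ∈ S, Zero (X 1) v) →
          Module.finrank L E * (Module.finrank K L *
            ((1 / (8 * (g + 1)) - ε) * (Module.finrank ℚ K * Real.log T))) +
            1 / 4 * ∑ v ∈ S, Real.log (nv v) -
            1 / 4 * ldd L E (algebraMap (𝓞 L) (𝓞 E) (algebraMap (𝓞 K) (𝓞 L) f.discr)) ≤
            hhat X) ∧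
        (∀ l B, l ≠ [] → Apart l B → dl (X 1) l B ≠ 0 →
          ∀ S : Finset (HeightOneSpectrum (𝓞 E)), (∀ v ∈ S, Zero (X 1) v) →
            Module.finrank L E * (Module.finrank K L *
              ((l.length / (8 * (g + 1)) - ε) * (Module.finrank ℚ K * Real.log T))) +
              1 / 4 * ∑ v ∈ S, Real.log (nv v) -
              1 / 4 * ldd L E (algebraMap (𝓞 L) (𝓞 E) (algebraMap (𝓞 K) (𝓞 L) f.discr)) ≤
              hhat X) ∧
        ∀ n : ℕ, Comp f r X n →
          (Origin (X n) ∨ ∀ S : Finset (HeightOneSpectrum (𝓞 E)), (∀ v ∈ S, Zero (X n) v) →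
            Module.finrank L E * (Module.finrank K L *
              ((1 / (2 * (g + 1)) - ε) * (Module.finrank ℚ K * Real.log T))) +
              ∑ v ∈ S, Real.log (nv v) ≤ 4 ^ n * hhat X) ∧
          ∀ l B, l ≠ [] → Apart l B → dl (X n) l B ≠ 0 →
            ∀ S : Finset (HeightOneSpectrum (𝓞 E)), (∀ v ∈ S, Zero (X n) v) →
              Module.finrank L E * (Module.finrank K L *
                ((l.length / (2 * (g + 1)) - ε) * (Module.finrank ℚ K * Real.log T))) +
                ∑ v ∈ S, Real.log (nv v) ≤ 4 ^ n * hhat X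

/-- The points of finite order on the Jacobian of the curve `y ^ 2 = f(x)`, `f` of degree `2 g + 2`,
and on all its quadratic twists, over all finite extensions of `K`, are determined by their images in
the groups of components at the primes which divide the discriminant exactly once. -/
def TorsionBound (g : ℕ) (f : (𝓞 K)[X]) : Prop :=
  f.discr ≠ 0 ∧
  ∀ (L : Type) [Field L] [NumberField L] [Algebra K L]
    [IsSplittingField K L (f.map (algebraMap (𝓞 K) K))] (r : Fin (2 * g + 2) → L),
    f.map (algebraMap (𝓞 K) L) = ∏ i, (Polynomial.X - C (r i)) →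
    Function.Injective r ∧ Function.Injective (bc r) ∧
    ∀ (E : Type) [Field E] [NumberField E] [Algebra L E],
      ∀ X : ℕ → Finset (Fin (2 * g + 1)) → E, Orbit (fun i => algebraMap L E (bc r i)) X →
        Torsion X → ∀ n : ℕ, Comp f r X n → Origin (X n)

end Pool.Agent.H433.CQ
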