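import Pool.Agent.H433.CQ.Num
import Pool.Agent.H433.CP.Main
import Pool.Agent.H433.EW.Main3

/-!
The main theorems for the polynomials of degree `2 g + 2` with rational critical points.
-/

set_option autoImplicit false
set_option linter.unusedSectionVars false
set_option linter.unusedVariables false

open NumberField IsDedekindDomain Finset Polynomial Filter Topology

namespace Pool.Agent.H433.CQ

open Pool.Agent.H433.AC Pool.Agent.H433.HG Pool.Agent.H433.HD
open Pool.Agent.H433.GT (mi le_mi)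
open Pool.Agent.H433.EW.Poly (bc)

variable {K L : Type} [Field K] [NumberField K] [Field L] [NumberField L] [Algebra K L] {g : ℕ}

/-- the primes which divide the discriminant exactly once are nodes -/
theorem node_poly {f : (𝓞 K)[X]} (hn : f.natDegree = 2 * g + 1 + 1)
    [IsSplittingField K L (f.map (algebraMap (𝓞 K) K))] (hD : f.discr ≠ 0)
    {r : Fin (2 * g + 1 + 1) → L}
    (hf : f.map (algebraMap (𝓞 K) L) =
      C (algebraMap (𝓞 K) L f.leadingCoeff) * ∏ i, (X - C (r i)))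
    {v : HeightOneSpectrum (𝓞 K)} (hv : Once f.discr v) :
    EW.Poly.Node r v ∧ ¬ f.contentIdeal ≤ v.asIdeal := by
  have hf0 : f ≠ 0 := by
    rintro rfl
    simp at hn
  have hno : Normal K L := Normal.of_isSplittingField (f.map (algebraMap (𝓞 K) K))
  have hga : IsGalois K L := {}
  obtain ⟨α, β, hβ, hr'⟩ := EW.exists_int r
  have h := EW.dn_poly hn hD hf hβ hr'
  have hc := EW.content_ne hn
  have hspec (u : HeightOneSpectrum (𝓞 L)) (hu : J L v ≤ u.asIdeal) :=
    EW.once_spec h (EW.perm_poly hf0 hf hβ hr') hc (EW.disc_poly hn hf hβ hr') hv hu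
  refine ⟨(EW.node_iff h hβ hr' v).2 (EW.node_of_smp h fun u hu => (hspec u hu).2.2),
    fun hle => ?_⟩
  obtain ⟨w, hw⟩ := EW.exists_over L v
  have h1 := (hspec w hw).1
  have h2 := (le_mi (v := v) hc 1).1 (by
    rw [pow_one, Ideal.dvd_iff_le]
    exact hle)
  omega

/-- the heights of the roots, if they are integral -/
theorem hm_int {r : Fin (2 * g + 1 + 1) → L} {b : Fin (2 * g + 1 + 1) → 𝓞 L}
    (hb : ∀ i, (b i : L) = r i) {m : Fin (2 * g + 1 + 1) → InfinitePlace L → ℝ}
    (hm0 : ∀ i w, 0 < m i w) (i : Fin (2 * g + 1 + 1)) : EW.Poly.hm r m i = sz (m i) := by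
  rw [← EW.hp_hm (α := b) (β := fun _ => 1) hm0 (fun _ => one_ne_zero)
    (fun i => by rw [hb]; simp) i]
  unfold EW.hp
  have h1 : EW.ai b (fun _ => 1) i = ⊤ := by
    unfold EW.ai
    rw [Ideal.eq_top_iff_one]
    exact Ideal.subset_span (by simp)
  rw [h1, Ideal.absNorm_top]
  simp

/-- the size of the differences of the roots -/
theorem root_size {n : ℕ} {f : (𝓞 K)[X]} {a : Fin n → L}
    (ha : f.map (algebraMap (𝓞 K) L) = ∏ i, (X - C (a i))) {M : ℝ}
    (hM : ∀ a : L, (f.map (algebraMap (𝓞 K) L)).eval a = 0 → ∀ w : InfinitePlace L, w a ≤ M)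
    (w : InfinitePlace L) (i j : Fin n) : w (a i - a j) ≤ 2 * M := by
  have h1 (i : Fin n) : w (a i) ≤ M := by
    refine hM _ ?_ w
    rw [ha, eval_prod]
    exact prod_eq_zero (mem_univ i) (by simp)
  have h2 : w (a i - a j) ≤ w (a i) + w (a j) := by
    rw [← InfinitePlace.norm_embedding_eq, ← InfinitePlace.norm_embedding_eq,
      ← InfinitePlace.norm_embedding_eq, map_sub]
    exact norm_sub_le _ _
  linarith [h1 i, h1 j]

theorem hml_eq {r : Fin (2 * g + 1 + 1) → L} {m : Fin (2 * g + 1 + 1) → InfinitePlace L → ℝ}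
    {s : ℝ} (hs : ∀ i, EW.Poly.hm r m i = s / 2)
    {l : List (Fin (2 * g + 1) × Fin (2 * g + 1))} {B : Finset (Fin (2 * g + 1))}
    (hl : Apart l B) : EW.Poly.hml r m l = l.length * s := by
  unfold EW.Poly.hml
  have h1 : l.Nodup := (List.nodup_append.1 hl.1).1.of_map
  rw [sum_congr rfl fun p _ => by rw [hs, hs], sum_const, List.toFinset_card_of_nodup h1,
    nsmul_eq_mul]
  ring

/-- the bounds for one polynomial -/
theorem one_poly (hg : 1 ≤ g) {T : ℕ} (hT : 1 ≤ T) {f : (𝓞 K)[X]}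
    (hf : f.Monic) (hn : f.natDegree = 2 * g + 1 + 1) (hD : f.discr ≠ 0) {B : ℝ} (hB : 1 ≤ B)
    (hM : ∀ (L : Type) [Field L] [NumberField L] [Algebra K L] (a : L),
      (f.map (algebraMap (𝓞 K) L)).eval a = 0 → ∀ w : InfinitePlace L,
        w a ≤ B * (T : ℝ) ^ ((((2 * g + 1 : ℕ) : ℝ) + 1)⁻¹))
    {s : ℝ} (hs : s = Module.finrank ℚ K *
      (Real.log (2 * B) + (((2 * g + 1 : ℕ) : ℝ) + 1)⁻¹ * Real.log T))
    (L : Type) [Field L] [NumberField L] [Algebra K L]
    [IsSplittingField K L (f.map (algebraMap (𝓞 K) K))] (r : Fin (2 * g + 1 + 1) → L)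
    (hr : f.map (algebraMap (𝓞 K) L) = ∏ i, (Polynomial.X - C (r i))) :
    Function.Injective r ∧ Function.Injective (bc r) ∧
    ht (fun S => (rs (bc r) S)⁻¹) ≤ Module.finrank K L * (g * (g + 1) * s) ∧
    ∀ (E : Type) [Field E] [NumberField E] [Algebra L E],
      ∀ X : ℕ → Finset (Fin (2 * g + 1)) → E, Orbit (fun i => algebraMap L E (bc r i)) X →
        Tendsto (fun n : ℕ => ht (X n) / 4 ^ n) atTop (𝓝 (hhat X)) ∧
        (Origin (X 1) ∨ ∀ S : Finset (HeightOneSpectrum (𝓞 E)), (∀ v ∈ S, Zero (X 1) v) →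
          Module.finrank L E * (Module.finrank K L *
            (3 / 4 * (once f.discr - (2 * (2 * g + 1) * (g + 1) - 4 / 3 * 1) * s) -
              4 * g * Module.finrank ℚ K)) + ∑ v ∈ S, Real.log (nv v) -
            ldd L E (algebraMap (𝓞 L) (𝓞 E) (algebraMap (𝓞 K) (𝓞 L) f.discr)) ≤
            4 * hhat X) ∧
        (∀ l B, l ≠ [] → Apart l B → dl (X 1) l B ≠ 0 →
          ∀ S : Finset (HeightOneSpectrum (𝓞 E)), (∀ v ∈ S, Zero (X 1) v) →
            Module.finrank L E * (Module.finrank K L *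
            (3 / 4 * (once f.discr - (2 * (2 * g + 1) * (g + 1) - 4 / 3 * l.length) * s) -
              4 * g * Module.finrank ℚ K)) + ∑ v ∈ S, Real.log (nv v) -
            ldd L E (algebraMap (𝓞 L) (𝓞 E) (algebraMap (𝓞 K) (𝓞 L) f.discr)) ≤
            4 * hhat X) ∧
        ∀ n : ℕ, Comp f r X n →
          (Torsion X → 0 < 3 / 4 * (once f.discr -
            (2 * (2 * g + 1) * (g + 1) - 4 / 3 * 1) * s) - 4 * g * Module.finrank ℚ K →
            Origin (X n)) ∧
          (Origin (X n) ∨ ∀ S : Finset (HeightOneSpectrum (𝓞 E)), (∀ v ∈ S, Zero (X n) v) →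
            Module.finrank L E * (Module.finrank K L *
            (3 / 4 * (once f.discr - (2 * (2 * g + 1) * (g + 1) - 4 / 3 * 1) * s) -
              4 * g * Module.finrank ℚ K)) + ∑ v ∈ S, Real.log (nv v) ≤ 4 ^ n * hhat X) ∧
          ∀ l B, l ≠ [] → Apart l B → dl (X n) l B ≠ 0 →
            ∀ S : Finset (HeightOneSpectrum (𝓞 E)), (∀ v ∈ S, Zero (X n) v) →
              Module.finrank L E * (Module.finrank K L *
            (3 / 4 * (once f.discr - (2 * (2 * g + 1) * (g + 1) - 4 / 3 * l.length) * s) -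
              4 * g * Module.finrank ℚ K)) + ∑ v ∈ S, Real.log (nv v) ≤ 4 ^ n * hhat X := by
  have hT0 : (0 : ℝ) < T := by exact_mod_cast hT
  set M : ℝ := 2 * (B * (T : ℝ) ^ ((((2 * g + 1 : ℕ) : ℝ) + 1)⁻¹)) with hMd
  have hM0 : 0 < M := by positivity
  have hlM : Real.log M = Real.log (2 * B) + (((2 * g + 1 : ℕ) : ℝ) + 1)⁻¹ * Real.log T := by
    rw [hMd, ← mul_assoc, Real.log_mul (by positivity) (by positivity), Real.log_rpow hT0]
  have hr' : f.map (algebraMap (𝓞 K) L) =
      C (algebraMap (𝓞 K) L f.leadingCoeff) * ∏ i, (X - C (r i)) := by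
    rw [hf.leadingCoeff, map_one, map_one, one_mul, hr]
  have hint (i : Fin (2 * g + 1 + 1)) : IsIntegral ℤ (r i) := by
    have h1 : IsIntegral (𝓞 K) (r i) := by
      refine ⟨f, hf, ?_⟩
      rw [← eval_map, hr, eval_prod]
      exact prod_eq_zero (mem_univ i) (by simp)
    exact isIntegral_trans (R := ℤ) (A := 𝓞 K) _ h1
  set b : Fin (2 * g + 1 + 1) → 𝓞 L := fun i => ⟨r i, hint i⟩ with hb
  have hba (i : Fin (2 * g + 1 + 1)) : ((b i : 𝓞 L) : L) = r i := rfl
  set mm : Fin (2 * g + 1 + 1) → InfinitePlace L → ℝ := fun _ _ => Real.sqrt M with hmm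
  have hm0 : ∀ i w, 0 < mm i w := fun _ _ => Real.sqrt_pos.2 hM0
  have hm1 : ∀ w i j, w (r i - r j) ≤ mm i w * mm j w := fun w i j => by
    rw [hmm, Real.mul_self_sqrt hM0.le]
    exact root_size hr (hM L) w i j
  have hfin : (Module.finrank ℚ L : ℝ) = Module.finrank K L * Module.finrank ℚ K := by
    rw [← Module.finrank_mul_finrank ℚ K L]
    push_cast
    ring
  have hh (i : Fin (2 * g + 1 + 1)) : EW.Poly.hm r mm i = Module.finrank K L * s / 2 := by
    rw [hm_int hba hm0 i]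
    have : mm i = fun _ => Real.sqrt M := rfl
    rw [this, sz_const, Real.log_sqrt hM0.le, hfin, hlM, hs]
    ring
  have hsum : ∑ k, EW.Poly.hm r mm k = (g + 1) * (Module.finrank K L * s) := by
    rw [sum_congr rfl fun k _ => hh k, sum_const, card_univ, Fintype.card_fin, nsmul_eq_mul]
    push_cast
    ring
  obtain ⟨hinj, hbinj, hht, hall⟩ := EW.poly_b g hg K L f hn hD r hr' mm hm0 hm1
  obtain ⟨V, hV1, hV2⟩ := CP.exists_once hD
  obtain ⟨-, -, hall'⟩ := EW.poly_a g hg K L f hn hD r hr' mm hm0 hm1 V fun v hv =>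
    node_poly hn hD hr' ((hV1 v).1 hv)
  have hhs : ∀ i, EW.Poly.hm r mm i = (Module.finrank K L * s) / 2 := hh
  rw [hsum] at hht
  refine ⟨hinj, hbinj, ?_, fun E _ _ _ Z hZ => ?_⟩
  · refine hht.trans (le_of_eq ?_)
    ring
  obtain ⟨h1, h2, h3⟩ := hall E Z hZ
  obtain ⟨-, h4, h5⟩ := hall' E Z hZ
  have hkey (k : ℝ) : (Module.finrank L E : ℝ) * (3 / 4 * (Module.finrank K L * once f.discr -
      2 * (2 * g + 1) * ((g + 1) * (Module.finrank K L * s)) +
      4 / 3 * (k * (Module.finrank K L * s))) - 4 * g * Module.finrank ℚ L) =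
      Module.finrank L E * (Module.finrank K L *
            (3 / 4 * (once f.discr - (2 * (2 * g + 1) * (g + 1) - 4 / 3 * k) * s) -
              4 * g * Module.finrank ℚ K)) := by
    rw [hfin]
    ring
  have hij (i j : Fin (2 * g + 1)) : EW.Poly.hm r mm i.castSucc + EW.Poly.hm r mm j.castSucc =
      1 * (Module.finrank K L * s) := by
    rw [hh, hh]
    ring
  refine ⟨h1, ?_, ?_, fun n hn' => ?_⟩
  · rcases h2 with h6 | ⟨i, j, -, h6⟩
    · exact Or.inl h6
    · refine Or.inr fun S hS => ?_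
      have h7 := h6 S hS
      rw [hsum, hij, hkey] at h7
      exact h7
  · intro l B' hl0 hl hd S hS
    have h7 := h3 l B' hl0 hl hd S hS
    rw [hsum, hml_eq hhs hl, hkey] at h7
    exact h7
  · obtain ⟨h6, h7, h8⟩ := h5 n ∅ fun v hv u w hu hw _ => hn' v ((hV1 v).1 hv) u w hu hw
    have hp0 (D : 𝓞 E) : part (∅ : Finset (HeightOneSpectrum (𝓞 E))) D = 0 := by
      unfold part
      exact sum_empty
    refine ⟨fun hto hpos => h6 hto fun i j _ => ?_, ?_, ?_⟩
    · rw [hp0, hsum, hij, hV2, hkey, mul_zero]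
      have e1 : (0 : ℝ) < Module.finrank L E := by exact_mod_cast Module.finrank_pos
      have e2 : (0 : ℝ) < Module.finrank K L := by exact_mod_cast Module.finrank_pos
      exact mul_pos e1 (mul_pos e2 hpos)
    · rcases h7 with h9 | ⟨i, j, -, h9⟩
      · exact Or.inl h9
      · refine Or.inr fun S hS => ?_
        have h10 := h9 S hS
        rw [hp0, hsum, hij, hV2, hkey, mul_zero, sub_zero] at h10
        exact h10
    · intro l B' hl0 hl hd S hS
      have h10 := h8 l B' hl0 hl hd S hS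
      rw [hp0, hsum, hml_eq hhs hl, hV2, hkey, mul_zero, sub_zero] at h10
      exact h10

end Pool.Agent.H433.CQ
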