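import Pool.Agent.H433.CQ.Main

/-!
The main theorems for the polynomials of degree `2 g + 2` with rational critical points: almost all
`t`.
-/

set_option autoImplicit false
set_option linter.unusedSectionVars false
set_option linter.unusedVariables false

open NumberField IsDedekindDomain Finset Polynomial Filter Topology

namespace Pool.Agent.H433.CQ

open Pool.Agent.H433.AC Pool.Agent.H433.HG Pool.Agent.H433.HD
open Pool.Agent.H433.EW.Poly (bc)

variable {K : Type} [Field K] [NumberField K] {g : ℕ}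

/-- all the conclusions for one polynomial -/
theorem ls_of (hg : 1 ≤ g) {ε : ℝ} (hε : 0 < ε) {T : ℕ} (hT : 1 ≤ T) {f : (𝓞 K)[X]}
    (hf : f.Monic) (hn : f.natDegree = 2 * g + 1 + 1) (hD : f.discr ≠ 0) {B : ℝ} (hB : 1 ≤ B)
    (hM : ∀ (L : Type) [Field L] [NumberField L] [Algebra K L] (a : L),
      (f.map (algebraMap (𝓞 K) L)).eval a = 0 → ∀ w : InfinitePlace L,
        w a ≤ B * (T : ℝ) ^ ((((2 * g + 1 : ℕ) : ℝ) + 1)⁻¹))
    {s : ℝ} (hs : s = Module.finrank ℚ K *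
      (Real.log (2 * B) + (((2 * g + 1 : ℕ) : ℝ) + 1)⁻¹ * Real.log T))
    (h1 : (g : ℝ) * (g + 1) * s ≤ (g / 2 + ε) * (Module.finrank ℚ K * Real.log T))
    (h2 : ∀ k : ℝ, 0 ≤ k → (k / (2 * (g + 1)) - ε) * (Module.finrank ℚ K * Real.log T) ≤
      3 / 4 * (once f.discr - (2 * (2 * g + 1) * (g + 1) - 4 / 3 * k) * s) -
        4 * g * Module.finrank ℚ K) : LangSilverman g ε T f := by
  refine ⟨hD, fun L _ _ _ _ r hr => ?_⟩
  obtain ⟨hinj, hbinj, hht, hall⟩ := one_poly hg hT hf hn hD hB hM hs L r hr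
  have hℓ : 0 ≤ Real.log T := Real.log_nonneg (by exact_mod_cast hT)
  have hnL : (0 : ℝ) ≤ Module.finrank K L := Nat.cast_nonneg _
  refine ⟨hinj, hbinj, hht.trans (mul_le_mul_of_nonneg_left h1 hnL), fun E _ _ _ Z hZ => ?_⟩
  obtain ⟨t1, t2, t3, t4⟩ := hall E Z hZ
  have hnE : (0 : ℝ) ≤ Module.finrank L E := Nat.cast_nonneg _
  have hdℓ : 0 ≤ (Module.finrank ℚ K : ℝ) * Real.log T := mul_nonneg (Nat.cast_nonneg _) hℓ
  have hmul {x y : ℝ} (h : x ≤ y) : (Module.finrank L E : ℝ) * (Module.finrank K L * x) ≤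
      Module.finrank L E * (Module.finrank K L * y) :=
    mul_le_mul_of_nonneg_left (mul_le_mul_of_nonneg_left h hnL) hnE
  have hnum (k : ℝ) (hk : 0 ≤ k) : (Module.finrank L E : ℝ) * (Module.finrank K L *
      ((k / (8 * (g + 1)) - ε) * (Module.finrank ℚ K * Real.log T))) ≤
      1 / 4 * (Module.finrank L E * (Module.finrank K L *
        (3 / 4 * (once f.discr - (2 * (2 * g + 1) * (g + 1) - 4 / 3 * k) * s) -
          4 * g * Module.finrank ℚ K))) := by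
    have e1 : (k / (8 * (g + 1)) - ε) * (Module.finrank ℚ K * Real.log T) =
        1 / 4 * ((k / (2 * (g + 1)) - ε) * (Module.finrank ℚ K * Real.log T)) -
          3 / 4 * (ε * (Module.finrank ℚ K * Real.log T)) := by
      have : (g : ℝ) + 1 ≠ 0 := by positivity
      field_simp
      ring
    have e2 : 0 ≤ ε * (Module.finrank ℚ K * Real.log T) := mul_nonneg hε.le hdℓ
    have e3 : (k / (8 * (g + 1)) - ε) * (Module.finrank ℚ K * Real.log T) ≤
        1 / 4 * (3 / 4 * (once f.discr - (2 * (2 * g + 1) * (g + 1) - 4 / 3 * k) * s) -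
          4 * g * Module.finrank ℚ K) := by
      have := h2 k hk
      rw [e1]
      linarith
    refine (hmul e3).trans (le_of_eq ?_)
    ring
  refine ⟨t1, ?_, ?_, fun n hn' => ⟨?_, ?_⟩⟩
  · rcases t2 with h6 | h6
    · exact Or.inl h6
    · refine Or.inr fun S hS => ?_
      have h7 := h6 S hS
      have h8 := hnum 1 zero_le_one
      linarith
  · intro l B' hl0 hl hd S hS
    have h7 := t3 l B' hl0 hl hd S hS
    have h8 := hnum l.length (Nat.cast_nonneg _)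
    linarith
  · rcases (t4 n hn').2.1 with h6 | h6
    · exact Or.inl h6
    · refine Or.inr fun S hS => ?_
      have h7 := h6 S hS
      have h8 := hmul (h2 1 zero_le_one)
      linarith
  · intro l B' hl0 hl hd S hS
    have h7 := (t4 n hn').2.2 l B' hl0 hl hd S hS
    have h8 := hmul (h2 l.length (Nat.cast_nonneg _))
    linarith

/-- the points of finite order, for one polynomial -/
theorem tb_of (hg : 1 ≤ g) {ε : ℝ} (hε : ε < 1 / (2 * (g + 1))) {T : ℕ} (hT : 2 ≤ T)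
    {f : (𝓞 K)[X]} (hf : f.Monic) (hn : f.natDegree = 2 * g + 1 + 1) (hD : f.discr ≠ 0) {B : ℝ}
    (hB : 1 ≤ B)
    (hM : ∀ (L : Type) [Field L] [NumberField L] [Algebra K L] (a : L),
      (f.map (algebraMap (𝓞 K) L)).eval a = 0 → ∀ w : InfinitePlace L,
        w a ≤ B * (T : ℝ) ^ ((((2 * g + 1 : ℕ) : ℝ) + 1)⁻¹))
    {s : ℝ} (hs : s = Module.finrank ℚ K *
      (Real.log (2 * B) + (((2 * g + 1 : ℕ) : ℝ) + 1)⁻¹ * Real.log T))
    (h2 : ∀ k : ℝ, 0 ≤ k → (k / (2 * (g + 1)) - ε) * (Module.finrank ℚ K * Real.log T) ≤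
      3 / 4 * (once f.discr - (2 * (2 * g + 1) * (g + 1) - 4 / 3 * k) * s) -
        4 * g * Module.finrank ℚ K) : TorsionBound g f := by
  refine ⟨hD, fun L _ _ _ _ r hr => ?_⟩
  obtain ⟨hinj, hbinj, -, hall⟩ := one_poly hg (by omega) hf hn hD hB hM hs L r hr
  refine ⟨hinj, hbinj, fun E _ _ _ Z hZ hto n hn' => ?_⟩
  obtain ⟨-, -, -, t4⟩ := hall E Z hZ
  refine (t4 n hn').1 hto ?_
  have hℓ : 0 < Real.log T := Real.log_pos (by exact_mod_cast hT)
  have hd0 : (0 : ℝ) < Module.finrank ℚ K := by exact_mod_cast Module.finrank_pos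
  have h3 := h2 1 zero_le_one
  have h4 : 0 < (1 / (2 * (g + 1)) - ε) * (Module.finrank ℚ K * Real.log T) :=
    mul_pos (by linarith) (mul_pos hd0 hℓ)
  linarith

open Classical in
/-- the exceptional set -/
theorem exc (g : ℕ) (hg : 1 ≤ g) (K : Type) [Field K] [NumberField K] {A : ℝ} (hA : 1 ≤ A)
    {ε : ℝ} (hε : 0 < ε) : ∃ B : ℝ, 1 ≤ B ∧ ∃ C δ : ℝ, 0 < δ ∧ ∀ T : ℕ, 1 ≤ T →
      ∀ (φ : (𝓞 K)[X]) (c : Fin (2 * g + 1) → 𝓞 K), Crit (2 * g + 1) A T φ c →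
        ∃ S : Finset (𝓞 K),
        (S.card : ℝ) ≤ C * (T : ℝ) ^ (-δ) * (box K T).card ∧ ∀ t ∈ box K T, t ∉ S →
          2 ≤ T ∧ (φ - Polynomial.C t).Monic ∧ (φ - Polynomial.C t).natDegree = 2 * g + 1 + 1 ∧
          (φ - Polynomial.C t).discr ≠ 0 ∧
          (∀ (L : Type) [Field L] [NumberField L] [Algebra K L] (a : L),
            ((φ - Polynomial.C t).map (algebraMap (𝓞 K) L)).eval a = 0 →
            ∀ w : InfinitePlace L, w a ≤ B * (T : ℝ) ^ ((((2 * g + 1 : ℕ) : ℝ) + 1)⁻¹)) ∧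
          ∃ s : ℝ, s = Module.finrank ℚ K *
            (Real.log (2 * B) + (((2 * g + 1 : ℕ) : ℝ) + 1)⁻¹ * Real.log T) ∧
          (g : ℝ) * (g + 1) * s ≤ (g / 2 + ε) * (Module.finrank ℚ K * Real.log T) ∧
          ∀ k : ℝ, 0 ≤ k → (k / (2 * (g + 1)) - ε) * (Module.finrank ℚ K * Real.log T) ≤
            3 / 4 * (once (φ - Polynomial.C t).discr -
              (2 * (2 * g + 1) * (g + 1) - 4 / 3 * k) * s) - 4 * g * Module.finrank ℚ K := by
  obtain ⟨B, hB, hbd⟩ := exists_bound H115.CP.p1 K (2 * g + 1) A hA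
  set d := Module.finrank ℚ K with hd
  have hd1 : 1 ≤ d := Module.finrank_pos
  set C₁ : ℝ := Real.log (Nm (((2 * g + 1 + 1 : ℕ) : 𝓞 K) ^ (2 * g + 1 + 1))) with hC₁
  have hN0 : ((2 * g + 1 + 1 : ℕ) : 𝓞 K) ^ (2 * g + 1 + 1) ≠ 0 := by
    refine pow_ne_zero _ ?_
    rw [Nat.cast_ne_zero]
    omega
  have hC₁0 : 0 ≤ C₁ := by
    refine Real.log_nonneg ?_
    exact_mod_cast Nat.one_le_iff_ne_zero.2 (Nm_ne hN0)
  obtain ⟨η, hη0, hη1, ℓ₀, hℓ₀, hnum⟩ := num g d hg hd1 hB hε hC₁0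
  obtain ⟨B₁, hB₁, hcnt⟩ := H51.CP.c1 H80.CP.d1 H163.CP.c2 K (2 * g + 1) B (η / 2) hB
    (by linarith)
  obtain ⟨T₀, hT₀⟩ := exists_nat_ge (max 2 (Real.exp ℓ₀))
  have hT₀2 : (2 : ℝ) ≤ T₀ := (le_max_left _ _).trans hT₀
  have hT₀0 : (0 : ℝ) < T₀ := by linarith
  refine ⟨B, hB, 2 * B₁ + (T₀ : ℝ) ^ (η / 2), η / 2, by linarith, fun T hT φ c hc => ?_⟩
  have hT0 : (0 : ℝ) < T := by exact_mod_cast hT
  have hT1 : (1 : ℝ) ≤ T := by exact_mod_cast hT
  have hcard0 : (0 : ℝ) ≤ (box K T).card := Nat.cast_nonneg _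
  have hTδ : 0 < (T : ℝ) ^ (-(η / 2)) := Real.rpow_pos_of_pos hT0 _
  rcases lt_or_ge T T₀ with hlt | hge
  · refine ⟨box K T, ?_, fun t ht hn => absurd ht hn⟩
    have h1 : (1 : ℝ) ≤ (T₀ : ℝ) ^ (η / 2) * (T : ℝ) ^ (-(η / 2)) := by
      rw [Real.rpow_neg hT0.le, ← div_eq_mul_inv, one_le_div (Real.rpow_pos_of_pos hT0 _)]
      exact Real.rpow_le_rpow hT0.le (by exact_mod_cast hlt.le) (by linarith)
    have h2 : 0 ≤ 2 * B₁ * (T : ℝ) ^ (-(η / 2)) := by positivity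
    have h3 : (1 : ℝ) ≤ (2 * B₁ + (T₀ : ℝ) ^ (η / 2)) * (T : ℝ) ^ (-(η / 2)) := by
      rw [add_mul]
      linarith
    exact le_mul_of_one_le_left hcard0 h3
  · have hTT₀ : (T₀ : ℝ) ≤ T := by exact_mod_cast hge
    have hℓT : ℓ₀ ≤ Real.log T := by
      rw [Real.le_log_iff_exp_le hT0]
      exact ((le_max_right _ _).trans hT₀).trans hTT₀
    have hℓ : 0 ≤ Real.log T := Real.log_nonneg hT1
    set Y : ℝ := (T : ℝ) ^ η with hY
    set R : ℝ := (T : ℝ) ^ (1 - η) with hR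
    have hY1 : 1 ≤ Y := Real.one_le_rpow hT1 hη0.le
    have hR1 : 1 ≤ R := Real.one_le_rpow hT1 (by linarith)
    obtain ⟨hv, hroot⟩ := hbd T hT φ c hc
    refine ⟨(box K T).filter fun t => CP.Bad (fun i => φ.eval (c i)) Y R t, ?_,
      fun t ht hn => ?_⟩
    · refine (hcnt T hT _ hc.inj hv Y R hY1 hR1 _ fun t ht => mem_filter.1 ht).trans ?_
      have h1 : R / T + (T : ℝ) ^ (η / 2) / Y ≤ 2 * (T : ℝ) ^ (-(η / 2)) := by
        have e1 : R / T = (T : ℝ) ^ (-η) := by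
          rw [hR, Real.rpow_sub hT0, Real.rpow_one, Real.rpow_neg hT0.le]
          field_simp
        have e2 : (T : ℝ) ^ (η / 2) / Y = (T : ℝ) ^ (-(η / 2)) := by
          rw [hY, ← Real.rpow_sub hT0]
          congr 1
          ring
        have e3 : (T : ℝ) ^ (-η) ≤ (T : ℝ) ^ (-(η / 2)) :=
          Real.rpow_le_rpow_of_exponent_le hT1 (by linarith)
        rw [e1, e2]
        linarith
      have h2 : (T : ℝ) ^ Module.finrank ℚ K ≤ (box K T).card := by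
        rw [card_box]
        push_cast
        exact pow_le_pow_left₀ hT0.le (by linarith) _
      calc B₁ * (T : ℝ) ^ Module.finrank ℚ K * (R / T + (T : ℝ) ^ (η / 2) / Y)
          ≤ B₁ * (T : ℝ) ^ Module.finrank ℚ K * (2 * (T : ℝ) ^ (-(η / 2))) :=
            mul_le_mul_of_nonneg_left h1 (by positivity)
        _ = 2 * B₁ * (T : ℝ) ^ (-(η / 2)) * (T : ℝ) ^ Module.finrank ℚ K := by ring
        _ ≤ 2 * B₁ * (T : ℝ) ^ (-(η / 2)) * (box K T).card :=
            mul_le_mul_of_nonneg_left h2 (by positivity)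
        _ ≤ (2 * B₁ + (T₀ : ℝ) ^ (η / 2)) * (T : ℝ) ^ (-(η / 2)) * (box K T).card := by
            refine mul_le_mul_of_nonneg_right (mul_le_mul_of_nonneg_right ?_ hTδ.le) hcard0
            have : 0 ≤ (T₀ : ℝ) ^ (η / 2) := by positivity
            linarith
    · have hb : ¬ CP.Bad (fun i => φ.eval (c i)) Y R t := fun h => hn (mem_filter.2 ⟨ht, h⟩)
      obtain ⟨hD, hO⟩ := once_low hc hY1 hR1 hb
      have hT2 : 2 ≤ T := by
        have : (2 : ℝ) ≤ T := hT₀2.trans hTT₀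
        exact_mod_cast this
      have hmon : (φ - Polynomial.C t).Monic := by
        refine hc.monic.sub_of_left ?_
        rw [degree_eq_natDegree hc.monic.ne_zero, hc.deg]
        refine lt_of_le_of_lt degree_C_le ?_
        rw [← Nat.cast_zero]
        exact_mod_cast Nat.succ_pos _
      have hdeg : (φ - Polynomial.C t).natDegree = 2 * g + 1 + 1 := by
        rw [natDegree_sub_C, hc.deg]
      have hlR : Real.log R = (1 - η) * Real.log T := Real.log_rpow hT0 _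
      have hlY : Real.log Y = η * Real.log T := Real.log_rpow hT0 _
      rw [hlR, hlY] at hO
      obtain ⟨h1, h2⟩ := hnum (Real.log T) (once (φ - Polynomial.C t).discr) _ hℓT rfl hO
      exact ⟨hT2, hmon, hdeg, hD, hroot t ht, _, rfl, h1, h2⟩

open Classical in
/-- Lang-Silverman for almost all `t` -/
theorem main_ls (g : ℕ) (hg : 1 ≤ g) (K : Type) [Field K] [NumberField K] {A : ℝ} (hA : 1 ≤ A)
    {ε : ℝ} (hε : 0 < ε) : ∃ C δ : ℝ, 0 < δ ∧ ∀ T : ℕ, 1 ≤ T →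
      ∀ (φ : (𝓞 K)[X]) (c : Fin (2 * g + 1) → 𝓞 K), Crit (2 * g + 1) A T φ c →
        (((box K T).filter fun t => ¬ LangSilverman g ε T (φ - Polynomial.C t)).card : ℝ) ≤
          C * (T : ℝ) ^ (-δ) * (box K T).card := by
  obtain ⟨B, hB, C, δ, hδ, h⟩ := exc g hg K hA hε
  refine ⟨C, δ, hδ, fun T hT φ c hc => ?_⟩
  obtain ⟨S, hS, h1⟩ := h T hT φ c hc
  refine le_trans ?_ hS
  norm_cast
  refine card_le_card fun t ht => ?_
  rw [mem_filter] at ht
  by_contra hn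
  obtain ⟨h2, h3, h4, h5, h6, s, hs, h7, h8⟩ := h1 t ht.1 hn
  exact ht.2 (ls_of hg hε hT h3 h4 h5 hB h6 hs h7 h8)

open Classical in
/-- the points of finite order for almost all `t` -/
theorem main_tb (g : ℕ) (hg : 1 ≤ g) (K : Type) [Field K] [NumberField K] {A : ℝ} (hA : 1 ≤ A) :
    ∃ C δ : ℝ, 0 < δ ∧ ∀ T : ℕ, 1 ≤ T →
      ∀ (φ : (𝓞 K)[X]) (c : Fin (2 * g + 1) → 𝓞 K), Crit (2 * g + 1) A T φ c →
        (((box K T).filter fun t => ¬ TorsionBound g (φ - Polynomial.C t)).card : ℝ) ≤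
          C * (T : ℝ) ^ (-δ) * (box K T).card := by
  have hε : (0 : ℝ) < 1 / (4 * (g + 1)) := by positivity
  have hε' : (1 : ℝ) / (4 * (g + 1)) < 1 / (2 * (g + 1)) := by
    have h0 : (0 : ℝ) < g + 1 := by positivity
    exact one_div_lt_one_div_of_lt (by positivity) (by linarith)
  obtain ⟨B, hB, C, δ, hδ, h⟩ := exc g hg K hA hε
  refine ⟨C, δ, hδ, fun T hT φ c hc => ?_⟩
  obtain ⟨S, hS, h1⟩ := h T hT φ c hc
  refine le_trans ?_ hS
  norm_cast
  refine card_le_card fun t ht => ?_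
  rw [mem_filter] at ht
  by_contra hn
  obtain ⟨h2, h3, h4, h5, h6, s, hs, h7, h8⟩ := h1 t ht.1 hn
  exact ht.2 (tb_of hg hε' h2 h3 h4 h5 hB h6 hs h8)

end Pool.Agent.H433.CQ
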