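import Pool.Agent.H433.CQ.Pol

/-!
Numerical estimates.
-/

set_option autoImplicit false
set_option linter.unusedSectionVars false
set_option linter.unusedVariables false

open NumberField IsDedekindDomain Finset Polynomial

namespace Pool.Agent.H433.CQ

theorem num (g d : ℕ) (hg : 1 ≤ g) (hd : 1 ≤ d) {B ε C₁ : ℝ} (hB : 1 ≤ B) (hε : 0 < ε)
    (hC₁ : 0 ≤ C₁) : ∃ η : ℝ, 0 < η ∧ η < 1 ∧ ∃ ℓ₀ : ℝ, 0 ≤ ℓ₀ ∧ ∀ ℓ O s : ℝ, ℓ₀ ≤ ℓ →
      s = d * (Real.log (2 * B) + (((2 * g + 1 : ℕ) : ℝ) + 1)⁻¹ * ℓ) →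
      ((2 * g + 1 : ℕ) : ℝ) * (d * ((1 - η) * ℓ)) - ((2 * g + 1 : ℕ) : ℝ) *
        ((3 + ((2 * g + 1 : ℕ) : ℝ)) * (η * ℓ) + C₁) ≤ O →
      g * (g + 1) * s ≤ (g / 2 + ε) * (d * ℓ) ∧
      ∀ k : ℝ, 0 ≤ k → (k / (2 * (g + 1)) - ε) * (d * ℓ) ≤
        3 / 4 * (O - (2 * (2 * g + 1) * (g + 1) - 4 / 3 * k) * s) - 4 * g * d := by
  have hgR : (1 : ℝ) ≤ g := by exact_mod_cast hg
  have hdR : (1 : ℝ) ≤ d := by exact_mod_cast hd
  push_cast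
  generalize hG : (g : ℝ) = G at *
  generalize hDD : (d : ℝ) = D at *
  set L2 := Real.log (2 * B) with hL2
  have hL20 : 0 ≤ L2 := Real.log_nonneg (by linarith)
  have hN0 : 0 < 2 * G + 1 + 1 := by linarith
  set C₃ : ℝ := 3 / 4 * (2 * G + 1) * C₁ + 3 / 4 * (2 * G + 1) * (2 * G + 2) * D * L2 + 4 * G * D
    with hC₃
  have hC₃0 : 0 ≤ C₃ := by positivity
  have hQ : 0 < 3 / 2 * (2 * G + 1) * (D + 4 + 2 * G) := by positivity
  refine ⟨min (1 / 2) (ε / (3 / 2 * (2 * G + 1) * (D + 4 + 2 * G))),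
    lt_min (by norm_num) (div_pos hε hQ),
    lt_of_le_of_lt (min_le_left _ _) (by norm_num), 2 * C₃ / ε + G * (G + 1) * L2 / ε, by positivity,
    fun ℓ O s hℓ hs hO => ?_⟩
  set η := min (1 / 2) (ε / (3 / 2 * (2 * G + 1) * (D + 4 + 2 * G))) with hη
  have hη0 : 0 < η := lt_min (by norm_num) (div_pos hε hQ)
  have hη1 : η * (3 / 2 * (2 * G + 1) * (D + 4 + 2 * G)) ≤ ε := by
    have := min_le_right (1 / 2 : ℝ) (ε / (3 / 2 * (2 * G + 1) * (D + 4 + 2 * G)))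
    rwa [← hη, le_div_iff₀ hQ] at this
  have h1 : 0 ≤ 2 * C₃ / ε := by positivity
  have h2 : 0 ≤ G * (G + 1) * L2 / ε := by positivity
  have hℓ1 : 2 * C₃ ≤ ε * ℓ := by
    have : 2 * C₃ / ε ≤ ℓ := by linarith
    rw [div_le_iff₀ hε] at this
    linarith
  have hℓ2 : G * (G + 1) * L2 ≤ ε * ℓ := by
    have : G * (G + 1) * L2 / ε ≤ ℓ := by linarith
    rw [div_le_iff₀ hε] at this
    linarith
  have hℓ0 : 0 ≤ ℓ := by linarith
  set u := (2 * G + 1 + 1)⁻¹ * ℓ with hu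
  have hu1 : (2 * G + 1 + 1) * u = ℓ := by
    rw [hu, ← mul_assoc, mul_inv_cancel₀ hN0.ne', one_mul]
  refine ⟨?_, fun k hk => ?_⟩
  · have e1 : (G / 2 + ε) * (D * ℓ) = G * (G + 1) * (D * u) + D * (ε * ℓ) := by
      rw [← hu1]
      ring
    rw [e1, hs]
    have e2 : D * (G * (G + 1) * L2) ≤ D * (ε * ℓ) := mul_le_mul_of_nonneg_left hℓ2 (by linarith)
    nlinarith
  · have e1 : (k / (2 * (G + 1)) - ε) * (D * ℓ) = k * (D * u) - D * (ε * ℓ) := by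
      have : G + 1 ≠ 0 := by positivity
      rw [← hu1]
      field_simp
      ring
    have e2 : ε * ℓ ≤ D * (ε * ℓ) := le_mul_of_one_le_left (by positivity) hdR
    have e3 : η * (3 / 2 * (2 * G + 1) * (D + 4 + 2 * G)) * ℓ ≤ ε * ℓ :=
      mul_le_mul_of_nonneg_right hη1 hℓ0
    have e4 : 0 ≤ k * (D * L2) := by positivity
    have e5 : 3 / 4 * (O - (2 * (2 * G + 1) * (G + 1) - 4 / 3 * k) * s) - 4 * G * D =
        3 / 4 * O - 3 / 4 * (2 * G + 1) * (2 * G + 2) * D * L2 - 3 / 4 * (2 * G + 1) * D * ℓ +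
          k * (D * L2) + k * (D * u) - 4 * G * D := by
      rw [hs, ← hu1]
      ring
    rw [e1, e5]
    have e6 : 3 / 4 * ((2 * G + 1) * (D * ((1 - η) * ℓ)) -
        (2 * G + 1) * ((3 + (2 * G + 1)) * (η * ℓ) + C₁)) =
        3 / 4 * (2 * G + 1) * D * ℓ - 1 / 2 * (η * (3 / 2 * (2 * G + 1) * (D + 4 + 2 * G)) * ℓ) -
          3 / 4 * (2 * G + 1) * C₁ := by
      ring
    have e7 := mul_le_mul_of_nonneg_left hO (by norm_num : (0 : ℝ) ≤ 3 / 4)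
    rw [e6] at e7
    linarith

end Pool.Agent.H433.CQ
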