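import Pool.Agent.H433.CP.Num
import Pool.Agent.H433.CQ.Def

/-!
Polynomials with rational critical points, of any degree: the size of the roots, and the part of the
discriminant of the primes which divide it exactly once.
-/

set_option autoImplicit false
set_option linter.unusedSectionVars false
set_option linter.unusedVariables false

open NumberField IsDedekindDomain Finset Polynomial

namespace Pool.Agent.H433.CQ

open Pool.Agent.H433.AC Pool.Agent.H433.HD

variable {K : Type} [Field K] [NumberField K]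

/-- the size of the critical values and of the roots -/
theorem exists_bound (hP : CP.S_P1) (K : Type) [Field K] [NumberField K] (m : ℕ) (A : ℝ)
    (hA : 1 ≤ A) : ∃ B : ℝ, 1 ≤ B ∧ ∀ T : ℕ, 1 ≤ T → ∀ (φ : (𝓞 K)[X]) (c : Fin m → 𝓞 K),
      Crit m A T φ c → (∀ i, ∀ σ : K →+* ℂ, ‖σ ((φ.eval (c i) : 𝓞 K) : K)‖ ≤ B * T) ∧
      ∀ t ∈ box K T, ∀ (L : Type) [Field L] [NumberField L] [Algebra K L] (a : L),
        ((φ - C t).map (algebraMap (𝓞 K) L)).eval a = 0 → ∀ w : InfinitePlace L,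
          w a ≤ B * (T : ℝ) ^ ((m + 1 : ℝ)⁻¹) := by
  obtain ⟨C₀, hC₀, hbox⟩ := AC.box_size K
  obtain ⟨B, hB, hB'⟩ := hP m (1 + C₀) (by linarith)
  refine ⟨B * A, by nlinarith, fun T hT φ c hc => ?_⟩
  have hT0 : (0 : ℝ) < T := by exact_mod_cast hT
  have hAT : 0 < A * T := by positivity
  set ρ : ℝ := (A * T) ^ ((m + 1 : ℝ)⁻¹) with hρ
  have hρ0 : 0 < ρ := Real.rpow_pos_of_pos hAT _
  have hn0 : (m + 1 : ℝ) ≠ 0 := by positivity
  have hρn : ρ ^ (m + 1) = A * T := by
    rw [hρ, ← Real.rpow_natCast, ← Real.rpow_mul hAT.le]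
    push_cast
    rw [inv_mul_cancel₀ hn0, Real.rpow_one]
  have hcρ (i : Fin m) (σ : K →+* ℂ) : ‖σ (c i : K)‖ ≤ ρ := by
    have h1 := hc.size i σ
    rw [← hρn] at h1
    exact (pow_le_pow_iff_left₀ (norm_nonneg _) hρ0.le (by omega)).1 h1
  have hρA : ρ ≤ A * (T : ℝ) ^ ((m + 1 : ℝ)⁻¹) := by
    rw [hρ, Real.mul_rpow (by linarith) hT0.le]
    refine mul_le_mul_of_nonneg_right ?_ (by positivity)
    calc A ^ ((m + 1 : ℝ)⁻¹) ≤ A ^ (1 : ℝ) := by
          refine Real.rpow_le_rpow_of_exponent_le hA ?_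
          rw [inv_le_one₀ (by positivity)]
          have : (0 : ℝ) ≤ m := Nat.cast_nonneg m
          linarith
      _ = A := Real.rpow_one A
  -- the polynomials over `ℂ`
  have key (t : 𝓞 K) (ht : ∀ σ : K →+* ℂ, ‖σ (t : K)‖ ≤ C₀ * T) (σ : K →+* ℂ) :
      (∀ z, ((φ - C t).map (σ.comp (algebraMap (𝓞 K) K))).eval z = 0 → ‖z‖ ≤ B * ρ) ∧
      ∀ i, ‖((φ - C t).map (σ.comp (algebraMap (𝓞 K) K))).eval (σ (c i : K))‖ ≤
        B * ρ ^ (m + 1) := by
    have hdeg : (φ - C t).natDegree = m + 1 := by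
      rw [natDegree_sub_C, hc.deg]
    have hmon : (φ - C t).Monic := by
      refine hc.monic.sub_of_left ?_
      rw [degree_eq_natDegree hc.monic.ne_zero, hc.deg]
      refine lt_of_le_of_lt degree_C_le ?_
      rw [← Nat.cast_zero]
      exact_mod_cast Nat.succ_pos _
    refine hB' _ (fun i => σ (c i : K)) ρ hρ0 (hmon.map _) ?_ ?_ (fun i => hcρ i σ) ?_
    · rw [hmon.natDegree_map, hdeg]
    · rw [derivative_map, derivative_sub, derivative_C, sub_zero, hc.der, Polynomial.map_mul,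
        Polynomial.map_prod, map_C]
      congr 1
      · congr 1
        rw [map_natCast]
        push_cast
        rfl
      · refine prod_congr rfl fun i _ => ?_
        rw [Polynomial.map_sub, map_X, map_C]
        rfl
    · rw [hρn, ← coeff_zero_eq_eval_zero, coeff_map, coeff_sub, coeff_C_zero, map_sub]
      refine (norm_sub_le _ _).trans ?_
      have h1 := hc.zero σ
      have h2 := ht σ
      have h3 : C₀ * T ≤ C₀ * (A * T) := by
        refine mul_le_mul_of_nonneg_left ?_ (by linarith)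
        exact le_mul_of_one_le_left hT0.le hA
      have e1 : (σ.comp (algebraMap (𝓞 K) K)) (φ.coeff 0) = σ (φ.coeff 0 : K) := rfl
      have e2 : (σ.comp (algebraMap (𝓞 K) K)) t = σ (t : K) := rfl
      rw [e1, e2]
      linarith
  refine ⟨fun i σ => ?_, fun t ht L _ _ _ a ha w => ?_⟩
  · have h1 := (key 0 (fun σ => by simp; positivity) σ).2 i
    rw [C_0, sub_zero, hρn] at h1
    have e1 : (φ.map (σ.comp (algebraMap (𝓞 K) K))).eval (σ (c i : K)) =
        σ ((φ.eval (c i) : 𝓞 K) : K) := by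
      have : (σ (c i : K)) = (σ.comp (algebraMap (𝓞 K) K)) (c i) := rfl
      rw [this, eval_map_apply]
      rfl
    rw [e1] at h1
    calc _ ≤ B * (A * T) := h1
      _ = B * A * T := by ring
  · set τ := w.embedding with hτ
    set σ : K →+* ℂ := τ.comp (algebraMap K L) with hσ
    have h1 := (key t (fun σ => hbox T t ht σ) σ).1 (τ a) ?_
    · have e1 : w a = ‖τ a‖ := (InfinitePlace.norm_embedding_eq w a).symm
      rw [e1]
      refine h1.trans ?_
      calc B * ρ ≤ B * (A * (T : ℝ) ^ ((m + 1 : ℝ)⁻¹)) :=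
            mul_le_mul_of_nonneg_left hρA (by linarith)
        _ = _ := by ring
    · have e2 : (σ.comp (algebraMap (𝓞 K) K)) = τ.comp (algebraMap (𝓞 K) L) := by
        rw [hσ, RingHom.comp_assoc, IsScalarTower.algebraMap_eq (𝓞 K) K L]
      rw [e2, ← Polynomial.map_map, eval_map_apply, ha, map_zero]

/-- the part of the discriminant of the primes which divide it exactly once -/
theorem once_low {m : ℕ} {A : ℝ} {T : ℕ} {φ : (𝓞 K)[X]} {c : Fin m → 𝓞 K}
    (hc : Crit m A T φ c) {t : 𝓞 K} {Y R : ℝ} (hY : 1 ≤ Y) (hR : 1 ≤ R)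
    (hb : ¬ CP.Bad (fun i => φ.eval (c i)) Y R t) : (φ - C t).discr ≠ 0 ∧
    m * (Module.finrank ℚ K * Real.log R) - m * ((3 + m) * Real.log Y +
      Real.log (Nm (((m + 1 : ℕ) : 𝓞 K) ^ (m + 1)))) ≤ once (φ - C t).discr := by
  have hdeg : (φ - C t).natDegree = m + 1 := by
    rw [natDegree_sub_C, hc.deg]
  have hmon : (φ - C t).Monic := by
    refine hc.monic.sub_of_left ?_
    rw [degree_eq_natDegree hc.monic.ne_zero, hc.deg]
    refine lt_of_le_of_lt degree_C_le ?_
    rw [← Nat.cast_zero]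
    exact_mod_cast Nat.succ_pos _
  have hder : derivative (φ - C t) = C ((m + 1 : ℕ) : 𝓞 K) * ∏ i, (X - C (c i)) := by
    rw [derivative_sub, derivative_C, sub_zero, hc.der]
  obtain ⟨e, he⟩ := CP.discr_crit hmon hdeg hder
  set x : Fin m → 𝓞 K := fun i => t - φ.eval (c i) with hx
  have hprod : ∏ i, (φ - C t).eval (c i) = (-1) ^ m * ∏ i, x i := by
    have h1 : ∀ i, (φ - C t).eval (c i) = -x i := fun i => by
      rw [eval_sub, eval_C, hx]
      ring
    rw [prod_congr rfl fun i _ => h1 i, prod_neg, card_univ, Fintype.card_fin]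
  have he' : (φ - C t).discr = (-1) ^ (e + m) * ((m + 1 : ℕ) : 𝓞 K) ^ (m + 1) * ∏ i, x i := by
    rw [he, hprod, pow_add]
    ring
  clear he
  rename _ => he
  have hσ (i : Fin m) (σ : K →+* ℂ) : R < ‖σ (x i : K)‖ := by
    by_contra h
    exact hb (Or.inl ⟨i, σ, not_lt.1 h⟩)
  obtain ⟨σ₀⟩ : Nonempty (K →+* ℂ) := inferInstance
  have hx0 (i : Fin m) : x i ≠ 0 := by
    intro h
    have h1 := hσ i σ₀
    rw [h] at h1
    simp only [map_zero, norm_zero] at h1
    linarith
  set N : 𝓞 K := ((m + 1 : ℕ) : 𝓞 K) ^ (m + 1) with hN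
  have hN0 : N ≠ 0 := by
    rw [hN]
    refine pow_ne_zero _ ?_
    rw [Nat.cast_ne_zero]
    omega
  have hc0 : (-1 : 𝓞 K) ^ (e + m) * N ≠ 0 := mul_ne_zero (pow_ne_zero _ (by simp)) hN0
  refine ⟨?_, ?_⟩
  · rw [he]
    exact mul_ne_zero hc0 (prod_ne_zero_iff.2 fun i _ => hx0 i)
  have h1 := CP.fam_le hY hx0 hc0 (fun i I hI => ?_) (fun i j hij I hI hJ => ?_)
  · rw [← he, Nm_mul, CP.Nm_sign, one_mul] at h1
    have h2 (i : Fin m) : Module.finrank ℚ K * Real.log R ≤ Real.log (Nm (x i)) := by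
      rw [Nm_emb, ← Real.log_pow]
      have hR0 : 0 < R := by linarith
      refine Real.log_le_log (pow_pos hR0 _) ?_
      rw [← Embeddings.card K ℂ, ← card_univ, ← prod_const]
      exact prod_le_prod (fun _ _ => hR0.le) fun σ _ => (hσ i σ).le
    have h3 := sum_le_sum fun i (_ : i ∈ (univ : Finset (Fin m))) => h2 i
    rw [sum_const, card_univ, Fintype.card_fin, nsmul_eq_mul] at h3
    push_cast at h1 h3 ⊢
    linarith
  · by_contra h
    exact hb (Or.inr (Or.inl ⟨i, I, not_lt.1 h, hI⟩))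
  · by_contra h
    exact hb (Or.inr (Or.inr ⟨i, j, hij, I, not_lt.1 h, hI, hJ⟩))

end Pool.Agent.H433.CQ
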